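import Pool.Agent.Y627.KW.Main
import Pool.Agent.Y124.NFPoly
import Pool.Agent.Y124.MultiR

/-!
# Algebraic independence of iterated exponentials with real parameters

The functions `exp (α_i exp (β_i z))`, `exp (μ_l z)` with real parameters, `β_i > 0`, are algebraically independent
over `ℂ (z)` as soon as there is no multiplicative relation between them.
-/

set_option autoImplicit false

open Filter Topology MvPolynomial Pool.Agent.Y124 Pool.Agent.Y771.KF Pool.Agent.TH21.MS

namespace Pool.Agent.Y923.EE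

/-- the functions of a real variable -/
noncomputable def uR {p r : ℕ} (α β : Fin p → ℝ) (μ : Fin r → ℝ) (w : Fin p ⊕ Fin r) (t : ℝ) : ℝ :=
  w.elim (fun i => Real.exp (α i * Real.exp (β i * t))) fun l => Real.exp (μ l * t)

/-- the functions of a complex variable -/
noncomputable def uC {p r : ℕ} (α β : Fin p → ℝ) (μ : Fin r → ℝ) (w : Fin p ⊕ Fin r) (z : ℂ) : ℂ :=
  w.elim (fun i => Complex.exp (α i * Complex.exp (β i * z))) fun l => Complex.exp (μ l * z)

/-- no multiplicative relation -/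
def Nondeg {p r : ℕ} (α β : Fin p → ℝ) (μ : Fin r → ℝ) : Prop :=
  ∀ (c : Fin p → ℤ) (d : Fin r → ℤ), (∀ i₀, ∑ i, (if β i = β i₀ then (c i : ℝ) * α i else 0) = 0) →
    ∑ l, (d l : ℝ) * μ l = 0 → c = 0 ∧ d = 0

theorem id_div_log : Tendsto (fun t : ℝ => t / Real.log t) atTop atTop := by
  have h1 : Tendsto (fun t : ℝ => Real.log t / t) atTop (𝓝 0) := by
    have := Real.isLittleO_log_id_atTop.tendsto_div_nhds_zero
    simpa using this
  have h2 : ∀ᶠ t : ℝ in atTop, 0 < Real.log t / t := by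
    filter_upwards [eventually_gt_atTop (1 : ℝ)] with t ht
    exact div_pos (Real.log_pos ht) (by linarith)
  have h3 := (tendsto_nhdsWithin_iff.2 ⟨h1, h2⟩).inv_tendsto_nhdsGT_zero
  refine h3.congr fun t => ?_
  simp

theorem exp_div_log {b : ℝ} (hb : 0 < b) : Tendsto (fun t : ℝ => Real.exp (b * t) / Real.log t) atTop atTop := by
  refine tendsto_atTop_mono' _ ?_ (id_div_log.const_mul_atTop hb)
  filter_upwards [eventually_gt_atTop (1 : ℝ)] with t ht
  have hl := Real.log_pos ht
  rw [← mul_div_assoc]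
  refine div_le_div_of_nonneg_right ?_ hl.le
  have := Real.add_one_le_exp (b * t)
  linarith

theorem exp_lt {b b' : ℝ} (hb : b' < b) :
    Tendsto (fun t : ℝ => Real.exp (b' * t) / Real.exp (b * t)) atTop (𝓝 0) := by
  have h1 : (fun t : ℝ => Real.exp (b' * t) / Real.exp (b * t)) = fun t => Real.exp (-((b - b') * t)) := by
    funext t
    rw [← Real.exp_sub]
    congr 1
    ring
  rw [h1]
  exact Real.tendsto_exp_neg_atTop_nhds_zero.comp (tendsto_id.const_mul_atTop (sub_pos.2 hb))

theorem id_lt {b : ℝ} (hb : 0 < b) : Tendsto (fun t : ℝ => t / Real.exp (b * t)) atTop (𝓝 0) := by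
  have h := (Real.tendsto_pow_mul_exp_neg_atTop_nhds_zero 1).comp (tendsto_id.const_mul_atTop hb)
  have h2 := h.const_mul b⁻¹
  rw [mul_zero] at h2
  refine h2.congr fun t => ?_
  simp only [Function.comp, id, pow_one]
  rw [Real.exp_neg]
  field_simp

theorem growth {p r : ℕ} (α β : Fin p → ℝ) (μ : Fin r → ℝ) (hβ : ∀ i, 0 < β i) (hN : Nondeg α β μ)
    (c : Fin p → ℤ) (d : Fin r → ℤ) (hc : ¬ (c = 0 ∧ d = 0)) :
    Tendsto (fun t => |∑ i, (c i : ℝ) * (α i * Real.exp (β i * t)) + ∑ l, (d l : ℝ) * (μ l * t)| / Real.log t)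
      atTop atTop := by
  classical
  set D : ℝ := ∑ l, (d l : ℝ) * μ l with hD
  have hDt : ∀ t : ℝ, ∑ l, (d l : ℝ) * (μ l * t) = D * t := by
    intro t
    rw [hD, Finset.sum_mul]
    exact Finset.sum_congr rfl fun l _ => by ring
  set a : ℝ → ℝ := fun b => ∑ i, (if β i = b then (c i : ℝ) * α i else 0) with ha
  have hS : ∀ t : ℝ, ∑ i, (c i : ℝ) * (α i * Real.exp (β i * t)) =
      ∑ b ∈ Finset.univ.image β, a b * Real.exp (b * t) := by
    intro t
    rw [← Finset.sum_fiberwise_of_maps_to (g := β) (t := Finset.univ.image β)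
      (fun i _ => Finset.mem_image_of_mem _ (Finset.mem_univ i))]
    refine Finset.sum_congr rfl fun b _ => ?_
    rw [ha, Finset.sum_mul, Finset.sum_filter]
    refine Finset.sum_congr rfl fun i _ => ?_
    split_ifs with h
    · rw [h]
      ring
    · rw [zero_mul]
  by_cases hall : ∀ b ∈ Finset.univ.image β, a b = 0
  · have hD0 : D ≠ 0 := by
      intro h0
      refine hc (hN c d (fun i₀ => ?_) h0)
      exact hall (β i₀) (Finset.mem_image_of_mem _ (Finset.mem_univ i₀))
    have h1 : ∀ t : ℝ, ∑ i, (c i : ℝ) * (α i * Real.exp (β i * t)) + ∑ l, (d l : ℝ) * (μ l * t) = D * t := by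
      intro t
      rw [hS, hDt, Finset.sum_eq_zero, zero_add]
      intro b hb
      rw [hall b hb, zero_mul]
    simp only [h1]
    refine (id_div_log.const_mul_atTop (abs_pos.2 hD0)).congr' ?_
    filter_upwards [eventually_ge_atTop (0 : ℝ)] with t ht
    rw [abs_mul, abs_of_nonneg ht, mul_div_assoc]
  · push Not at hall
    obtain ⟨b1, hb1, hab1⟩ := hall
    obtain ⟨b0, hb0, hmax⟩ := Finset.exists_max_image ((Finset.univ.image β).filter fun b => a b ≠ 0) id
      ⟨b1, Finset.mem_filter.2 ⟨hb1, hab1⟩⟩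
    rw [Finset.mem_filter] at hb0
    obtain ⟨hb0i, hab0⟩ := hb0
    have hb0pos : 0 < b0 := by
      obtain ⟨i, _, hi⟩ := Finset.mem_image.1 hb0i
      rw [← hi]
      exact hβ i
    have hz : ∀ b ∈ Finset.univ.image β, b0 < b → a b = 0 := by
      intro b hb hlt
      by_contra hne
      exact absurd (hmax b (Finset.mem_filter.2 ⟨hb, hne⟩)) (not_le.2 hlt)
    have hlim : Tendsto (fun t => (∑ i, (c i : ℝ) * (α i * Real.exp (β i * t)) + ∑ l, (d l : ℝ) * (μ l * t)) /
        Real.exp (b0 * t)) atTop (𝓝 (a b0)) := by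
      have h2 : Tendsto (fun t : ℝ => ∑ b ∈ Finset.univ.image β, a b * (Real.exp (b * t) / Real.exp (b0 * t)))
          atTop (𝓝 (∑ b ∈ Finset.univ.image β, if b = b0 then a b0 else 0)) := by
        refine tendsto_finsetSum _ fun b hb => ?_
        rcases lt_trichotomy b b0 with h3 | h3 | h3
        · rw [if_neg h3.ne]
          simpa using (exp_lt h3).const_mul (a b)
        · rw [h3, if_pos rfl]
          refine tendsto_const_nhds.congr fun t => ?_
          rw [div_self (Real.exp_pos _).ne', mul_one]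
        · rw [if_neg h3.ne', hz b hb h3]
          simp
      rw [Finset.sum_ite_eq' _ b0 (fun _ => a b0), if_pos hb0i] at h2
      have h4 := (id_lt hb0pos).const_mul D
      rw [mul_zero] at h4
      have h5 := h2.add h4
      rw [add_zero] at h5
      refine h5.congr fun t => ?_
      rw [hS, hDt, add_div, Finset.sum_div]
      congr 1
      · exact Finset.sum_congr rfl fun b _ => by ring
      · ring
    have h6 := (exp_div_log hb0pos).atTop_mul_pos (abs_pos.2 hab0) hlim.abs
    refine h6.congr fun t => ?_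
    rw [abs_div, abs_of_pos (Real.exp_pos _)]
    have := (Real.exp_pos (b0 * t)).ne'
    field_simp

theorem uR_LB {p r : ℕ} (α β : Fin p → ℝ) (μ : Fin r → ℝ) (hβ : ∀ i, 0 < β i) (hN : Nondeg α β μ) :
    ∃ h : ℝ → ℝ, LB (uR α β μ) h := by
  refine ⟨fun t => ∑ i, Real.exp (β i * t) + t, LB_of_growth _ _ ?_ ?_ ?_ ?_ ?_⟩
  · rintro (i | l)
    · exact Eventually.of_forall fun t => Real.exp_pos _
    · exact Eventually.of_forall fun t => Real.exp_pos _
  · rintro (i | l)
    · refine ⟨0, Continuous.continuousOn ?_⟩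
      show Continuous fun t => Real.exp (α i * Real.exp (β i * t))
      fun_prop
    · refine ⟨0, Continuous.continuousOn ?_⟩
      show Continuous fun t => Real.exp (μ l * t)
      fun_prop
  · intro c hc
    have h1 := growth α β μ hβ hN (fun i => c (Sum.inl i)) (fun l => c (Sum.inr l)) (by
      rintro ⟨h2, h3⟩
      apply hc
      funext w
      rcases w with i | l
      · exact congrFun h2 i
      · exact congrFun h3 l)
    refine h1.congr fun t => ?_
    rw [Fintype.sum_sum_type]
    simp only [uR, Sum.elim_inl, Sum.elim_inr, Real.log_exp]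
  · filter_upwards [eventually_ge_atTop (1 : ℝ)] with t ht
    have h2 := Real.log_le_sub_one_of_pos (by linarith : (0 : ℝ) < t)
    have h3 : 0 ≤ ∑ i, Real.exp (β i * t) := Finset.sum_nonneg fun i _ => (Real.exp_pos _).le
    linarith
  · rintro (i | l)
    · refine ⟨|α i|, ?_⟩
      filter_upwards [eventually_ge_atTop (0 : ℝ)] with t ht
      show |Real.log (Real.exp (α i * Real.exp (β i * t)))| ≤ _
      rw [Real.log_exp, abs_mul, abs_of_pos (Real.exp_pos _)]
      refine mul_le_mul_of_nonneg_left ?_ (abs_nonneg _)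
      have h4 := Finset.single_le_sum (f := fun i => Real.exp (β i * t)) (fun i _ => (Real.exp_pos _).le)
        (Finset.mem_univ i)
      have h5 : Real.exp (β i * t) ≤ ∑ i, Real.exp (β i * t) := h4
      linarith
    · refine ⟨|μ l|, ?_⟩
      filter_upwards [eventually_ge_atTop (0 : ℝ)] with t ht
      show |Real.log (Real.exp (μ l * t))| ≤ _
      rw [Real.log_exp, abs_mul, abs_of_nonneg ht]
      refine mul_le_mul_of_nonneg_left ?_ (abs_nonneg _)
      have h3 : 0 ≤ ∑ i, Real.exp (β i * t) := Finset.sum_nonneg fun i _ => (Real.exp_pos _).le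
      linarith

theorem uR_an {p r : ℕ} (α β : Fin p → ℝ) (μ : Fin r → ℝ) (w : Fin p ⊕ Fin r) (a0 : ℝ) :
    AnalyticOnNhd ℝ (uR α β μ w) (Set.Ici a0) := by
  intro t _
  rcases w with i | l
  · show AnalyticAt ℝ (fun t => Real.exp (α i * Real.exp (β i * t))) t
    exact (analyticAt_const.mul (analyticAt_const.mul analyticAt_id).rexp).rexp
  · show AnalyticAt ℝ (fun t => Real.exp (μ l * t)) t
    exact (analyticAt_const.mul analyticAt_id).rexp

theorem uC_an {p r : ℕ} (α β : Fin p → ℝ) (μ : Fin r → ℝ) (w : Fin p ⊕ Fin r) (z : ℂ) :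
    AnalyticAt ℂ (uC α β μ w) z := by
  rcases w with i | l
  · show AnalyticAt ℂ (fun z => Complex.exp (α i * Complex.exp (β i * z))) z
    exact (analyticAt_const.mul (analyticAt_const.mul analyticAt_id).cexp).cexp
  · show AnalyticAt ℂ (fun z => Complex.exp (μ l * z)) z
    exact (analyticAt_const.mul analyticAt_id).cexp

theorem uC_indep {p r : ℕ} (α β : Fin p → ℝ) (μ : Fin r → ℝ) (hβ : ∀ i, 0 < β i) (hN : Nondeg α β μ) :
    AIndepS (uC α β μ) Set.univ := by
  obtain ⟨h, hh⟩ := uR_LB α β μ hβ hN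
  refine Pool.Agent.Y627.KW.indep_of_LB (uR α β μ) h 0 (fun w => uR_an α β μ w 0) hh _ _
    (fun _ _ => Set.mem_univ _) ?_
  rintro (i | l) t _
  · show Complex.exp (α i * Complex.exp (β i * (t : ℂ))) = ((Real.exp (α i * Real.exp (β i * t)) : ℝ) : ℂ)
    push_cast
    rfl
  · show Complex.exp (μ l * (t : ℂ)) = ((Real.exp (μ l * t) : ℝ) : ℂ)
    push_cast
    rfl

theorem eval_an {κ : Type} (f : κ → ℂ → ℂ) (S : Set ℂ) (han : ∀ w, AnalyticOnNhd ℂ (f w) S)
    (P : MvPolynomial (Option κ) ℂ) :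
    AnalyticOnNhd ℂ (fun z : ℂ => eval (fun o => o.elim z fun y => f y z) P) S := by
  induction P using MvPolynomial.induction_on with
  | C a =>
    simp only [eval_C]
    exact analyticOnNhd_const
  | add p q hp hq =>
    simp only [map_add]
    exact hp.add hq
  | mul_X p i hp =>
    simp only [map_mul, eval_X]
    refine hp.mul ?_
    rcases i with _ | y
    · exact analyticOnNhd_id
    · exact han y

/-- independence near every point -/
theorem locInd_of_S {κ : Type} (f : κ → ℂ → ℂ) (S : Set ℂ) (hS : IsPreconnected S)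
    (han : ∀ w, AnalyticOnNhd ℂ (f w) S) (hind : AIndepS f S) (t0 : ℂ) (ht0 : t0 ∈ S) : LocInd f t0 := by
  intro P hP
  apply hind P
  intro t ht
  exact (eval_an f S han P).eqOn_zero_of_preconnected_of_eventuallyEq_zero hS ht0 hP ht

/-- the counting theorem -/
theorem main {p r : ℕ} (α β : Fin p → ℝ) (μ : Fin r → ℝ) (hβ : ∀ i, 0 < β i) (hN : Nondeg α β μ)
    {h : Type} [Fintype h] (m n d : ℕ) (L : Set ℂ) (hL : IsCompact L) (A ε : ℝ) (hε : 0 < ε) :
    ∃ B C T₀ : ℝ, 0 ≤ C ∧ 2 ≤ T₀ ∧ ∀ (K : Type) [Field K] [NumberField K], Module.finrank ℚ K ≤ m → ∀ (io : K →+* ℂ)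
      (ξ : h → ℂ) (T : ℝ), T₀ ≤ T →
      (Pool.Agent.Y124.ExcNF n d K io ξ (fun t i => uC α β μ i t) L A B T).Finite ∧
      ((Pool.Agent.Y124.ExcNF n d K io ξ (fun t i => uC α β μ i t) L A B T).ncard : ℝ) ≤
        C * T ^ ε * (({x : K | Pool.Agent.Y120.HtLe K T x ∧ io x ∈ L}.ncard : ℝ)) ^ (n - 1) :=
  Pool.Agent.Y124.excNF m n d _ L (fun g => Pool.Agent.Y124.oneV_of g (uC α β μ) L hL
    (fun i t _ => uC_an α β μ i t) fun t _ => locInd_of_S _ Set.univ isPreconnected_univ
      (fun w z _ => uC_an α β μ w z) (uC_indep α β μ hβ hN) t (Set.mem_univ t)) A ε hε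

end Pool.Agent.Y923.EE
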