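import Pool.Agent.Y923.EE.Indep

/-!
# Algebraic independence of powers with irrational exponents
-/

set_option autoImplicit false

open Filter Topology MvPolynomial Pool.Agent.Y124 Pool.Agent.Y771.KF

namespace Pool.Agent.Y923.EE

/-- the character `w ↦ exp (c w)` of the real line -/
noncomputable def chr (c : ℂ) : Multiplicative ℝ →* ℂ where
  toFun w := Complex.exp (c * ((Multiplicative.toAdd w : ℝ) : ℂ))
  map_one' := by simp
  map_mul' x y := by
    rw [← Complex.exp_add, ← mul_add]
    simp

theorem chr_inj : Function.Injective chr := by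
  intro c c' h
  have h1 : ∀ w : ℝ, Complex.exp (c * (w : ℂ)) = Complex.exp (c' * (w : ℂ)) := fun w =>
    congrArg (fun f : Multiplicative ℝ →* ℂ => f (Multiplicative.ofAdd w)) h
  have h2 : HasDerivAt (fun w : ℝ => Complex.exp (c * (w : ℂ))) (Complex.exp (c * ((0 : ℝ) : ℂ)) * c) 0 := by
    have h3 : HasDerivAt (fun w : ℝ => c * (w : ℂ)) c 0 := by
      simpa using (Complex.ofRealCLM.hasDerivAt (x := (0 : ℝ))).const_mul c
    exact h3.cexp
  have h2' : HasDerivAt (fun w : ℝ => Complex.exp (c' * (w : ℂ))) (Complex.exp (c' * ((0 : ℝ) : ℂ)) * c') 0 := by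
    have h3 : HasDerivAt (fun w : ℝ => c' * (w : ℂ)) c' 0 := by
      simpa using (Complex.ofRealCLM.hasDerivAt (x := (0 : ℝ))).const_mul c'
    exact h3.cexp
  have h4 : (fun w : ℝ => Complex.exp (c * (w : ℂ))) = fun w : ℝ => Complex.exp (c' * (w : ℂ)) := funext h1
  rw [h4] at h2
  have h5 := h2.unique h2'
  simpa using h5

/-- the function `z ^ θ` -/
noncomputable def pw {κ : Type} (θ : κ → ℂ) (i : κ) (z : ℂ) : ℂ := z ^ θ i

theorem pw_an {κ : Type} (θ : κ → ℂ) (i : κ) : AnalyticOnNhd ℂ (pw θ i) {z : ℂ | 0 < z.re} := by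
  intro z hz
  have hz' : z ∈ Complex.slitPlane := Or.inl hz
  have h1 : AnalyticAt ℂ (fun z : ℂ => Complex.exp (Complex.log z * θ i)) z :=
    ((analyticAt_clog hz').mul analyticAt_const).cexp
  refine h1.congr ?_
  filter_upwards [Complex.isOpen_slitPlane.mem_nhds hz'] with w hw
  exact (Complex.cpow_def_of_ne_zero (Complex.slitPlane_ne_zero hw) _).symm

theorem pw_pre : IsPreconnected {z : ℂ | 0 < z.re} :=
  (convex_halfSpace_re_gt 0).isPreconnected

/-- `1` and the `θ_i` are linearly independent over the rational numbers -/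
def QInd {κ : Type} [Fintype κ] (θ : κ → ℂ) : Prop :=
  ∀ (a : ℤ) (c : κ → ℤ), (a : ℂ) + ∑ i, (c i : ℂ) * θ i = 0 → a = 0 ∧ c = 0

theorem pw_indep {κ : Type} [Fintype κ] [DecidableEq κ] (θ : κ → ℂ) (hθ : QInd θ) :
    AIndepS (pw θ) {z : ℂ | 0 < z.re} := by
  intro P hP
  -- frequencies
  set fr : (Option κ →₀ ℕ) → ℂ := fun s => (s none : ℂ) + ∑ i, (s (some i) : ℂ) * θ i with hfr
  have hinj : Function.Injective fr := by
    intro s s' h
    have h1 := hθ ((s none : ℤ) - s' none) (fun i => (s (some i) : ℤ) - s' (some i)) (by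
      simp only [hfr] at h
      push_cast
      simp only [sub_mul, Finset.sum_sub_distrib]
      linear_combination h)
    obtain ⟨h2, h3⟩ := h1
    ext o
    rcases o with _ | i
    · omega
    · have := congrFun h3 i
      simp only [Pi.zero_apply] at this
      omega
  have hlin := (linearIndependent_monoidHom (Multiplicative ℝ) ℂ).comp (fun s => chr (fr s))
    (chr_inj.comp hinj)
  have hsum : ∑ s ∈ P.support, P.coeff s • (fun w : Multiplicative ℝ => chr (fr s) w) = 0 := by
    funext w
    have h1 := hP (Complex.exp ((Multiplicative.toAdd w : ℝ) : ℂ)) (by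
      show 0 < (Complex.exp ((Multiplicative.toAdd w : ℝ) : ℂ)).re
      rw [← Complex.ofReal_exp, Complex.ofReal_re]
      exact Real.exp_pos _)
    rw [eval_eq'] at h1
    simp only [Finset.sum_apply, Pi.smul_apply, smul_eq_mul, Pi.zero_apply]
    rw [← h1]
    refine Finset.sum_congr rfl fun s _ => ?_
    congr 1
    rw [Fintype.prod_option]
    simp only [Option.elim]
    have h2 : ∀ i, pw θ i (Complex.exp ((Multiplicative.toAdd w : ℝ) : ℂ)) =
        Complex.exp (((Multiplicative.toAdd w : ℝ) : ℂ) * θ i) := by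
      intro i
      unfold pw
      rw [Complex.cpow_def_of_ne_zero (Complex.exp_ne_zero _), ← Complex.ofReal_exp, ← Complex.ofReal_log
        (Real.exp_pos _).le, Real.log_exp]
    simp only [h2]
    show Complex.exp (fr s * ((Multiplicative.toAdd w : ℝ) : ℂ)) = _
    rw [← Complex.exp_nat_mul]
    simp only [← Complex.exp_nat_mul]
    rw [← Complex.exp_sum, ← Complex.exp_add]
    congr 1
    rw [hfr, add_mul, Finset.sum_mul]
    congr 1
    exact Finset.sum_congr rfl fun i _ => by ring
  have h3 := linearIndependent_iff'.1 hlin P.support (fun s => P.coeff s) hsum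
  ext s
  rw [coeff_zero]
  by_cases hs : s ∈ P.support
  · exact h3 s hs
  · rwa [mem_support_iff, not_not] at hs

end Pool.Agent.Y923.EE
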