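import Pool.Agent.Y923.EE.PowStep

/-!
# Powers of rational numbers with irrational exponents: counting
-/

set_option autoImplicit false

open NumberField Finset

namespace Pool.Agent.Y923.EE

open Pool.Agent.Y120 (HtLe)

theorem scale_bd (N : ℕ) (hN : 2 ≤ N) (B B0 R : ℝ) (hR : 0 ≤ R) (hB : 3 * |B0| + 2 * R ≤ B) :
    (N : ℝ) ^ (-B) * (2 * (N : ℝ)) ^ R ≤ (2 * (N : ℝ) ^ 2) ^ (-B0) := by
  have hN' : (2 : ℝ) ≤ N := by exact_mod_cast hN
  have hN0 : (0 : ℝ) < N := by linarith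
  have h1 : (2 * (N : ℝ)) ^ R ≤ (N : ℝ) ^ (2 * R) := by
    rw [Real.rpow_mul hN0.le, Real.rpow_two]
    exact Real.rpow_le_rpow (by positivity) (by nlinarith) hR
  have h2 : (N : ℝ) ^ (-(3 * |B0|)) ≤ (2 * (N : ℝ) ^ 2) ^ (-B0) := by
    have h3 : (2 * (N : ℝ) ^ 2) ^ (-|B0|) ≤ (2 * (N : ℝ) ^ 2) ^ (-B0) :=
      Real.rpow_le_rpow_of_exponent_le (by nlinarith) (neg_le_neg (le_abs_self _))
    refine le_trans ?_ h3
    rw [Real.rpow_neg hN0.le, Real.rpow_neg (by positivity)]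
    refine inv_anti₀ (by positivity) ?_
    have h4 : (N : ℝ) ^ (3 * |B0|) = ((N : ℝ) ^ 3) ^ |B0| := by
      rw [← Real.rpow_natCast (N : ℝ) 3, ← Real.rpow_mul hN0.le]
      norm_num
    rw [h4]
    refine Real.rpow_le_rpow (by positivity) ?_ (abs_nonneg _)
    nlinarith [sq_nonneg (N : ℝ)]
  calc (N : ℝ) ^ (-B) * (2 * (N : ℝ)) ^ R ≤ (N : ℝ) ^ (-B) * (N : ℝ) ^ (2 * R) :=
        mul_le_mul_of_nonneg_left h1 (by positivity)
    _ = (N : ℝ) ^ (-B + 2 * R) := by rw [Real.rpow_add hN0]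
    _ ≤ (N : ℝ) ^ (-(3 * |B0|)) := Real.rpow_le_rpow_of_exponent_le (by linarith) (by linarith)
    _ ≤ _ := h2

theorem step {k g : ℕ} (θ : Fin k → ℂ) (d : ℕ) (ξ : Fin g → ℂ) (A B B0 : ℝ) (N : ℕ) (hN : 2 ≤ N)
    (hB : 3 * |B0| + 2 * ((d : ℝ) * ∑ j, ‖θ j‖) ≤ B) (r : ℚ) (hr : r ∈ ExcPow θ d ξ A B N) :
    (fun _ : Fin 1 => r / (2 : ℚ) ^ (Int.log 2 r)) ∈ Pool.Agent.Y124.ExcNF 1 d ℚ (algebraMap ℚ ℂ)
      (xi' θ d ξ (Int.log 2 r)) (fun t i => pw θ i t) L12 |A| B0 (2 * (N : ℝ) ^ 2) := by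
  classical
  obtain ⟨hr0, hn, hden, P, hPd, hPc, s₀, hs₀, hs⟩ := hr
  obtain ⟨_, _, _, hp3, hp4⟩ := pos_bd r hr0 N hN hn hden
  have hN' : (2 : ℝ) ≤ N := by exact_mod_cast hN
  have hN0 : (0 : ℝ) < N := by linarith
  set a := Int.log 2 r with ha
  set f : Fin k → Fin 1 × Fin k := fun i => (0, i) with hf
  have hfi : Function.Injective f := fun i j h => (Prod.mk.inj h).2
  have hfs : Function.Surjective f := by
    rintro ⟨u, i⟩
    exact ⟨i, by rw [hf]; exact Prod.ext (Subsingleton.elim _ _) rfl⟩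
  set co : (Fin k →₀ ℕ) → ℂ := fun s => P.coeff s * ∏ j, wt θ a j ^ s j with hco
  have hsd : ∀ s ∈ P.support, ∀ v, s v ≤ d := fun s hs v => (MvPolynomial.degreeOf_le_iff.1 (hPd v)) s hs
  refine ⟨fun _ => ⟨htLe_quot r hr0 N hN hn hden, quot_mem r hr0 N hN hn hden⟩, rescale f co P.support,
    rescale_degreeOf f hfi hfs co P.support d hsd, fun t => ?_, s₀.mapDomain f, ?_, ?_⟩
  · have hpos : (0 : ℝ) ≤ (2 * (N : ℝ) ^ 2) ^ |A| := by positivity
    rcases rescale_cases f hfi co P.support t with ⟨s, hs, rfl, hc⟩ | h0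
    · obtain ⟨c, hc1, hc2⟩ := hPc s
      refine ⟨fun p => if (fun j => (p.2 j : ℕ)) = s then ((c p.1 : ℤ) : 𝓞 ℚ) else 0, fun p φ => ?_, ?_⟩
      · beta_reduce
        split_ifs with h
        · rw [norm_emb]
          refine (hc1 _).trans ?_
          calc (N : ℝ) ^ A ≤ (N : ℝ) ^ |A| := Real.rpow_le_rpow_of_exponent_le (by linarith) (le_abs_self _)
            _ ≤ _ := Real.rpow_le_rpow hN0.le (by nlinarith) (abs_nonneg _)
        · simpa using hpos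
      · rw [hc, hco]
        dsimp only
        rw [hc2, Finset.sum_mul, Fintype.sum_prod_type]
        refine Finset.sum_congr rfl fun i _ => ?_
        rw [Finset.sum_eq_single (fun j => (⟨s j, Nat.lt_succ_of_le (hsd s hs j)⟩ : Fin (d + 1)))]
        · simp [xi']
          ring
        · intro v _ hv
          rw [if_neg]
          · simp
          · intro h
            apply hv
            funext j
            exact Fin.ext (congrFun h j)
        · intro h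
          exact absurd (Finset.mem_univ _) h
    · refine ⟨fun _ => 0, fun i φ => ?_, ?_⟩
      · simpa using hpos
      · rw [h0]
        simp
  · rw [rescale_coeff f hfi co P.support s₀ (MvPolynomial.mem_support_iff.2 hs₀), hco]
    refine mul_ne_zero hs₀ (Finset.prod_ne_zero_iff.2 fun j _ => pow_ne_zero _ ?_)
    unfold wt
    rw [Complex.cpow_def_of_ne_zero (by exact_mod_cast (by positivity : ((2 : ℝ) ^ a) ≠ 0))]
    exact Complex.exp_ne_zero _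
  · rw [rescale_coeff f hfi co P.support s₀ (MvPolynomial.mem_support_iff.2 hs₀), rescale_aeval f hfi]
    have hval : ∑ s ∈ P.support, co s * (s.prod fun i l =>
        (fun x : Fin 1 × Fin k => pw θ x.2 ((algebraMap ℚ ℂ) (r / (2 : ℚ) ^ a))) (f i) ^ l) =
        MvPolynomial.aeval (fun i => (r : ℂ) ^ θ i) P := by
      rw [MvPolynomial.aeval_def, MvPolynomial.eval₂_eq']
      refine Finset.sum_congr rfl fun s _ => ?_
      rw [hco, Finsupp.prod_fintype _ _ (by simp)]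
      dsimp only
      rw [mul_assoc, ← Finset.prod_mul_distrib]
      simp only [Algebra.algebraMap_self, RingHom.id_apply]
      congr 1
      refine Finset.prod_congr rfl fun j _ => ?_
      rw [← mul_pow, mul_comm, hf]
      dsimp only
      rw [pw_mul_wt θ j r hr0 a]
    rw [hval]
    refine hs.trans ?_
    have hW := wt_norm_ge θ a d (2 * (N : ℝ)) (by linarith) ?_ ?_ (fun j => s₀ j)
      (hsd s₀ (MvPolynomial.mem_support_iff.2 hs₀))
    · set R : ℝ := (d : ℝ) * ∑ j, ‖θ j‖ with hRdef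
      have hR : 0 ≤ R := mul_nonneg (Nat.cast_nonneg _) (Finset.sum_nonneg fun j _ => norm_nonneg _)
      have hsc := scale_bd N hN B B0 R hR hB
      rw [hco]
      dsimp only
      rw [norm_mul]
      have h1 : 1 ≤ (2 * (N : ℝ)) ^ R * ‖∏ j, wt θ a j ^ s₀ j‖ := by
        calc (1 : ℝ) = (2 * (N : ℝ)) ^ R * (2 * (N : ℝ)) ^ (-R) := by
              rw [← Real.rpow_add (by positivity), add_neg_cancel, Real.rpow_zero]
          _ ≤ _ := mul_le_mul_of_nonneg_left hW (by positivity)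
      calc (N : ℝ) ^ (-B) * ‖P.coeff s₀‖ ≤
            (N : ℝ) ^ (-B) * ‖P.coeff s₀‖ * ((2 * (N : ℝ)) ^ R * ‖∏ j, wt θ a j ^ s₀ j‖) :=
              le_mul_of_one_le_right (by positivity) h1
        _ = ((N : ℝ) ^ (-B) * (2 * (N : ℝ)) ^ R) * (‖P.coeff s₀‖ * ‖∏ j, wt θ a j ^ s₀ j‖) := by ring
        _ ≤ _ := mul_le_mul_of_nonneg_right hsc (by positivity)
    · have : (2 : ℚ) ^ a ≤ 2 * N := hp4.trans (by
        have : (0 : ℚ) ≤ N := Nat.cast_nonneg _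
        linarith)
      have h12 := (Rat.cast_le (K := ℝ)).2 this
      push_cast at h12
      exact h12
    · have h10 : (0 : ℝ) < (2 : ℝ) ^ a := by positivity
      have h11 := (Rat.cast_le (K := ℝ)).2 hp3.le
      push_cast at h11
      rw [inv_le_iff_one_le_mul₀ (by positivity)]
      linarith

theorem natlog_bd (N : ℕ) (hN : 2 ≤ N) (ε : ℝ) (hε : 0 < ε) :
    (2 * ((Nat.log 2 N : ℝ) + 1) + 1) ≤ (2 / (ε * Real.log 2) + 3) * (N : ℝ) ^ ε := by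
  have hN' : (2 : ℝ) ≤ N := by exact_mod_cast hN
  have hl2 : 0 < Real.log 2 := Real.log_pos (by norm_num)
  have h1 : (Nat.log 2 N : ℝ) * Real.log 2 ≤ Real.log N := by
    rw [← Real.log_pow]
    refine Real.log_le_log (by positivity) ?_
    exact_mod_cast Nat.pow_log_le_self 2 (by omega)
  have h2 : Real.log N ≤ (N : ℝ) ^ ε / ε := Real.log_le_rpow_div (by linarith) hε
  have h3 : (Nat.log 2 N : ℝ) ≤ (N : ℝ) ^ ε / (ε * Real.log 2) := by
    rw [← div_div, le_div_iff₀ hl2]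
    exact h1.trans h2
  have h4 : (1 : ℝ) ≤ (N : ℝ) ^ ε := Real.one_le_rpow (by linarith) hε.le
  calc (2 * ((Nat.log 2 N : ℝ) + 1) + 1) = 2 * (Nat.log 2 N : ℝ) + 3 * 1 := by ring
    _ ≤ 2 * ((N : ℝ) ^ ε / (ε * Real.log 2)) + 3 * (N : ℝ) ^ ε := by gcongr
    _ = _ := by ring

/-- the counting theorem -/
theorem countPow {k : ℕ} (θ : Fin k → ℂ) (hθ : QInd θ) (g d : ℕ) (A ε : ℝ) (hε : 0 < ε) :
    ∃ (B C : ℝ) (N₀ : ℕ), 2 ≤ N₀ ∧ ∀ (ξ : Fin g → ℂ) (N : ℕ), N₀ ≤ N → (ExcPow θ d ξ A B N).Finite ∧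
      ((ExcPow θ d ξ A B N).ncard : ℝ) ≤ C * (N : ℝ) ^ ε := by
  classical
  obtain ⟨B0, C, T₀, hC, hT₀, H⟩ := mainPow θ hθ (h := Fin g × (Fin k → Fin (d + 1))) 1 1 d |A| (ε / 4)
    (by linarith)
  refine ⟨3 * |B0| + 2 * ((d : ℝ) * ∑ j, ‖θ j‖), (2 / (ε / 4 * Real.log 2) + 3) * C, max 2 ⌈T₀⌉₊,
    le_max_left _ _, fun ξ N hN => ?_⟩
  have hN2 : 2 ≤ N := (le_max_left _ _).trans hN
  have hN' : (2 : ℝ) ≤ N := by exact_mod_cast hN2
  have hN0 : (0 : ℝ) < N := by linarith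
  have hNT : T₀ ≤ N := (Nat.le_ceil _).trans (by exact_mod_cast (le_max_right _ _).trans hN)
  have hT : T₀ ≤ 2 * (N : ℝ) ^ 2 := by nlinarith
  set E : ℤ → Set (Fin 1 → ℚ) := fun a => Pool.Agent.Y124.ExcNF 1 d ℚ (algebraMap ℚ ℂ)
    (xi' θ d ξ a) (fun t i => pw θ i t) L12 |A| B0 (2 * (N : ℝ) ^ 2) with hE
  have hE1 : ∀ a, (E a).Finite ∧ ((E a).ncard : ℝ) ≤ C * (2 * (N : ℝ) ^ 2) ^ (ε / 4) := by
    intro a
    obtain ⟨h1, h2⟩ := H ℚ (by simp) (algebraMap ℚ ℂ) (xi' θ d ξ a) _ hT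
    simp only [Nat.sub_self, pow_zero, mul_one] at h2
    exact ⟨h1, h2⟩
  set J : Finset ℤ := Finset.Icc (-((Nat.log 2 N : ℤ) + 1)) ((Nat.log 2 N : ℤ) + 1) with hJ
  set G : Set ℚ := ⋃ a ∈ J, (fun x : Fin 1 → ℚ => x 0 * (2 : ℚ) ^ a) '' E a with hG
  have hsub : ExcPow θ d ξ A (3 * |B0| + 2 * ((d : ℝ) * ∑ j, ‖θ j‖)) N ⊆ G := by
    intro r hr
    have h1 := step θ d ξ A _ B0 N hN2 le_rfl r hr
    have h2 := log_bd r hr.1 N hN2 hr.2.1 hr.2.2.1
    rw [hG, Set.mem_iUnion₂]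
    refine ⟨Int.log 2 r, h2, _, h1, ?_⟩
    dsimp only
    exact div_mul_cancel₀ _ (by positivity)
  have hGfin : G.Finite := by
    rw [hG]
    exact Set.Finite.biUnion (Finset.finite_toSet J) fun a _ => ((hE1 a).1.image _)
  refine ⟨hGfin.subset hsub, ?_⟩
  have h3 : ((ExcPow θ d ξ A (3 * |B0| + 2 * ((d : ℝ) * ∑ j, ‖θ j‖)) N).ncard : ℝ) ≤ (G.ncard : ℝ) := by
    exact_mod_cast Set.ncard_le_ncard hsub hGfin
  have h4 : (G.ncard : ℝ) ≤ ∑ a ∈ J, ((E a).ncard : ℝ) := by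
    have h5 : G.ncard ≤ ∑ a ∈ J, ((fun x : Fin 1 → ℚ => x 0 * (2 : ℚ) ^ a) '' E a).ncard := by
      rw [hG]
      exact Finset.set_ncard_biUnion_le J _
    have h6 : ∑ a ∈ J, ((fun x : Fin 1 → ℚ => x 0 * (2 : ℚ) ^ a) '' E a).ncard ≤ ∑ a ∈ J, (E a).ncard :=
      Finset.sum_le_sum fun a _ => Set.ncard_image_le (hE1 a).1
    exact_mod_cast h5.trans h6
  have h7 : ∑ a ∈ J, ((E a).ncard : ℝ) ≤ (2 * ((Nat.log 2 N : ℝ) + 1) + 1) * (C * (2 * (N : ℝ) ^ 2) ^ (ε / 4)) := by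
    have h8 := Finset.sum_le_card_nsmul J (fun a => ((E a).ncard : ℝ)) _ fun a _ => (hE1 a).2
    refine h8.trans (le_of_eq ?_)
    rw [nsmul_eq_mul]
    congr 1
    rw [hJ, Int.card_Icc]
    have : ((Nat.log 2 N : ℤ) + 1 + 1 - -((Nat.log 2 N : ℤ) + 1)).toNat = 2 * (Nat.log 2 N + 1) + 1 := by omega
    rw [this]
    push_cast
    ring
  have h9 : (2 * (N : ℝ) ^ 2) ^ (ε / 4) ≤ (N : ℝ) ^ (3 * (ε / 4)) := by
    rw [Real.rpow_mul hN0.le]
    refine Real.rpow_le_rpow (by positivity) ?_ (by linarith)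
    have : (N : ℝ) ^ (3 : ℝ) = (N : ℝ) ^ (3 : ℕ) := by
      rw [← Real.rpow_natCast]
      norm_num
    rw [this]
    nlinarith [sq_nonneg (N : ℝ)]
  have h10 := natlog_bd N hN2 (ε / 4) (by linarith)
  calc _ ≤ (2 * ((Nat.log 2 N : ℝ) + 1) + 1) * (C * (2 * (N : ℝ) ^ 2) ^ (ε / 4)) := h3.trans (h4.trans h7)
    _ ≤ ((2 / (ε / 4 * Real.log 2) + 3) * (N : ℝ) ^ (ε / 4)) * (C * (N : ℝ) ^ (3 * (ε / 4))) := by
        refine mul_le_mul h10 (mul_le_mul_of_nonneg_left h9 hC) (by positivity) ?_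
        exact (by positivity : (0 : ℝ) ≤ 2 * ((Nat.log 2 N : ℝ) + 1) + 1).trans h10
    _ = (2 / (ε / 4 * Real.log 2) + 3) * C * ((N : ℝ) ^ (ε / 4) * (N : ℝ) ^ (3 * (ε / 4))) := by ring
    _ = _ := by
        rw [← Real.rpow_add hN0]
        congr 2
        ring

end Pool.Agent.Y923.EE
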