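import Pool.Agent.Y923.EE.PowRat

/-!
# Powers of rational numbers with irrational exponents: the counting theorem
-/

set_option autoImplicit false

open NumberField Finset

namespace Pool.Agent.Y923.EE

/-- the positive rational numbers of height at most `N` with an approximate relation between the powers `r ^ θ_i` -/
def ExcPow {k g : ℕ} (θ : Fin k → ℂ) (d : ℕ) (ξ : Fin g → ℂ) (A B : ℝ) (N : ℕ) : Set ℚ :=
  {r | 0 < r ∧ r.num ≤ N ∧ (r.den : ℤ) ≤ N ∧ ∃ P : MvPolynomial (Fin k) ℂ, (∀ i, P.degreeOf i ≤ d) ∧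
    (∀ s, ∃ c : Fin g → ℤ, (∀ i, |((c i : ℤ) : ℝ)| ≤ (N : ℝ) ^ A) ∧ P.coeff s = ∑ i, ξ i * c i) ∧
    ∃ s₀, P.coeff s₀ ≠ 0 ∧ ‖MvPolynomial.aeval (fun i => (r : ℂ) ^ θ i) P‖ ≤ (N : ℝ) ^ (-B) * ‖P.coeff s₀‖}

/-- the compact set of the points -/
def L12 : Set ℂ := Complex.ofReal '' (Set.Icc 1 2)

theorem L12_compact : IsCompact L12 := isCompact_Icc.image Complex.continuous_ofReal

theorem L12_sub : L12 ⊆ {z : ℂ | 0 < z.re} := by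
  rintro _ ⟨x, hx, rfl⟩
  show 0 < ((x : ℝ) : ℂ).re
  rw [Complex.ofReal_re]
  exact lt_of_lt_of_le one_pos hx.1

theorem mainPow {k : ℕ} (θ : Fin k → ℂ) (hθ : QInd θ) {h : Type} [Fintype h] (m n d : ℕ) (A ε : ℝ) (hε : 0 < ε) :
    ∃ B C T₀ : ℝ, 0 ≤ C ∧ 2 ≤ T₀ ∧ ∀ (K : Type) [Field K] [NumberField K], Module.finrank ℚ K ≤ m → ∀ (io : K →+* ℂ)
      (ξ : h → ℂ) (T : ℝ), T₀ ≤ T →
      (Pool.Agent.Y124.ExcNF n d K io ξ (fun t i => pw θ i t) L12 A B T).Finite ∧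
      ((Pool.Agent.Y124.ExcNF n d K io ξ (fun t i => pw θ i t) L12 A B T).ncard : ℝ) ≤
        C * T ^ ε * (({x : K | Pool.Agent.Y120.HtLe K T x ∧ io x ∈ L12}.ncard : ℝ)) ^ (n - 1) :=
  Pool.Agent.Y124.excNF m n d _ L12 (fun g => Pool.Agent.Y124.oneV_of g (pw θ) L12 L12_compact
    (fun i t ht => pw_an θ i t (L12_sub ht)) fun t ht => locInd_of_S _ {z : ℂ | 0 < z.re} pw_pre
      (fun i => pw_an θ i) (pw_indep θ hθ) t (L12_sub ht)) A ε hε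

/-- the weights -/
noncomputable def wt {k : ℕ} (θ : Fin k → ℂ) (a : ℤ) (j : Fin k) : ℂ := (((2 : ℝ) ^ a : ℝ) : ℂ) ^ θ j

/-- the constants -/
noncomputable def xi' {k g : ℕ} (θ : Fin k → ℂ) (d : ℕ) (ξ : Fin g → ℂ) (a : ℤ)
    (p : Fin g × (Fin k → Fin (d + 1))) : ℂ := ξ p.1 * ∏ j, wt θ a j ^ (p.2 j : ℕ)

theorem wt_norm_ge {k : ℕ} (θ : Fin k → ℂ) (a : ℤ) (d : ℕ) (M : ℝ) (hM : 1 ≤ M) (h1 : (2 : ℝ) ^ a ≤ M)
    (h2 : M⁻¹ ≤ (2 : ℝ) ^ a) (s : Fin k → ℕ) (hs : ∀ j, s j ≤ d) :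
    M ^ (-((d : ℝ) * ∑ j, ‖θ j‖)) ≤ ‖∏ j, wt θ a j ^ s j‖ := by
  have hpos : (0 : ℝ) < (2 : ℝ) ^ a := by positivity
  have hM0 : 0 < M := by linarith
  rw [norm_prod]
  have h3 : ∀ j, M ^ (-((d : ℝ) * ‖θ j‖)) ≤ ‖wt θ a j ^ s j‖ := by
    intro j
    unfold wt
    rw [norm_pow, Complex.norm_cpow_eq_rpow_re_of_pos hpos, ← Real.rpow_natCast, ← Real.rpow_mul hpos.le]
    have h4 : |(θ j).re * (s j : ℝ)| ≤ (d : ℝ) * ‖θ j‖ := by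
      rw [abs_mul, Nat.abs_cast, mul_comm]
      exact mul_le_mul (by exact_mod_cast hs j) (Complex.abs_re_le_norm _) (abs_nonneg _) (Nat.cast_nonneg _)
    have h5 := abs_le.1 h4
    rcases le_total 0 ((θ j).re * (s j : ℝ)) with h6 | h6
    · calc M ^ (-((d : ℝ) * ‖θ j‖)) ≤ M ^ (-((θ j).re * (s j : ℝ))) :=
            Real.rpow_le_rpow_of_exponent_le hM (by linarith)
        _ = (M⁻¹) ^ ((θ j).re * (s j : ℝ)) := by
            rw [Real.rpow_neg hM0.le, Real.inv_rpow hM0.le]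
        _ ≤ _ := Real.rpow_le_rpow (by positivity) h2 h6
    · calc M ^ (-((d : ℝ) * ‖θ j‖)) ≤ M ^ ((θ j).re * (s j : ℝ)) :=
            Real.rpow_le_rpow_of_exponent_le hM (by linarith)
        _ ≤ _ := Real.rpow_le_rpow_of_nonpos hpos h1 h6
  calc M ^ (-((d : ℝ) * ∑ j, ‖θ j‖)) = ∏ j, M ^ (-((d : ℝ) * ‖θ j‖)) := by
        rw [← Real.rpow_sum_of_pos hM0]
        congr 1
        rw [Finset.mul_sum, Finset.sum_neg_distrib]
    _ ≤ _ := Finset.prod_le_prod (fun j _ => Real.rpow_nonneg hM0.le _) fun j _ => h3 j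

end Pool.Agent.Y923.EE
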