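import Pool.Agent.Y923.EE.Three

/-!
# One rational point: auxiliary polynomials
-/

set_option autoImplicit false

open NumberField Polynomial Finset

namespace Pool.Agent.Y923.EE

/-- the auxiliary polynomial in the variable `z0` -/
noncomputable def auxP {V : Type} (z0 : V) (d : ℕ) (a : Fin (d + 1) → ℂ) : MvPolynomial V ℂ :=
  ∑ k : Fin (d + 1), MvPolynomial.monomial (Finsupp.single z0 (k : ℕ)) (a k)

theorem auxP_coeff {V : Type} [DecidableEq V] (z0 : V) (d : ℕ) (a : Fin (d + 1) → ℂ) (s : V →₀ ℕ) :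
    (auxP z0 d a).coeff s = ∑ k : Fin (d + 1), if Finsupp.single z0 (k : ℕ) = s then a k else 0 := by
  unfold auxP
  rw [MvPolynomial.coeff_sum]
  simp only [MvPolynomial.coeff_monomial]

theorem auxP_coeff_single {V : Type} [DecidableEq V] (z0 : V) (d : ℕ) (a : Fin (d + 1) → ℂ) (k : Fin (d + 1)) :
    (auxP z0 d a).coeff (Finsupp.single z0 (k : ℕ)) = a k := by
  rw [auxP_coeff, Finset.sum_eq_single k]
  · simp
  · intro j _ hj
    rw [if_neg]
    intro h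
    apply hj
    have := Finsupp.single_injective z0 h
    exact Fin.ext this
  · intro h
    exact absurd (Finset.mem_univ k) h

theorem auxP_cases {V : Type} [DecidableEq V] (z0 : V) (d : ℕ) (a : Fin (d + 1) → ℂ) (s : V →₀ ℕ) :
    (∃ k : Fin (d + 1), s = Finsupp.single z0 (k : ℕ) ∧ (auxP z0 d a).coeff s = a k) ∨ (auxP z0 d a).coeff s = 0 := by
  by_cases h : ∃ k : Fin (d + 1), s = Finsupp.single z0 (k : ℕ)
  · obtain ⟨k, rfl⟩ := h
    exact Or.inl ⟨k, rfl, auxP_coeff_single z0 d a k⟩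
  · right
    rw [auxP_coeff]
    refine Finset.sum_eq_zero fun k _ => if_neg fun h' => h ⟨k, h'.symm⟩

theorem auxP_degreeOf {V : Type} [DecidableEq V] (z0 : V) (d : ℕ) (a : Fin (d + 1) → ℂ) (z : V) :
    (auxP z0 d a).degreeOf z ≤ d := by
  rw [MvPolynomial.degreeOf_le_iff]
  intro s hs
  rcases auxP_cases z0 d a s with ⟨k, rfl, _⟩ | h
  · by_cases hz : z = z0
    · rw [hz, Finsupp.single_eq_same]
      exact Nat.lt_succ_iff.1 k.2
    · rw [Finsupp.single_eq_of_ne hz]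
      exact Nat.zero_le _
  · exact absurd h (MvPolynomial.mem_support_iff.1 hs)

theorem auxP_aeval {V : Type} (z0 : V) (d : ℕ) (a : Fin (d + 1) → ℂ) (v : V → ℂ) :
    MvPolynomial.aeval v (auxP z0 d a) = ∑ k : Fin (d + 1), a k * v z0 ^ (k : ℕ) := by
  unfold auxP
  rw [map_sum]
  refine Finset.sum_congr rfl fun k _ => ?_
  rw [MvPolynomial.aeval_monomial, Finsupp.prod_single_index (by exact pow_zero _)]
  rfl

/-- the coefficients of `auxP` for `a k = p k * ξ (e k)` with integers `p k` -/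
theorem auxP_int {V : Type} [DecidableEq V] {g : ℕ} (z0 : V) (d : ℕ) (p : ℕ → ℤ) (e : Fin (d + 1) → Fin g)
    (ξ : Fin g → ℂ) (H : ℝ) (hH : 0 ≤ H) (hp : ∀ k, |((p k : ℤ) : ℝ)| ≤ H) (s : V →₀ ℕ) :
    ∃ c : Fin g → 𝓞 ℚ, (∀ i (φ : ℚ →+* ℂ), ‖φ (c i)‖ ≤ H) ∧
      (auxP z0 d (fun k => (p k : ℂ) * ξ (e k))).coeff s = ∑ i, ξ i * (algebraMap ℚ ℂ) (c i) := by
  rcases auxP_cases z0 d (fun k : Fin (d + 1) => (p k : ℂ) * ξ (e k)) s with ⟨k, _, hk⟩ | h
  · refine ⟨fun i => if i = e k then ((p k : ℤ) : 𝓞 ℚ) else 0, fun i φ => ?_, ?_⟩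
    · beta_reduce
      split_ifs with h
      · have h1 : φ (((p k : ℤ) : 𝓞 ℚ) : ℚ) = ((p k : ℤ) : ℂ) := by
          simp
        rw [h1, Complex.norm_intCast]
        exact hp k
      · simpa using hH
    · rw [hk, Finset.sum_eq_single (e k)]
      · simp [mul_comm]
      · intro i _ hi
        simp [hi]
      · intro h
        exact absurd (Finset.mem_univ _) h
  · refine ⟨fun _ => 0, fun i φ => ?_, ?_⟩
    · simpa using hH
    · rw [h]
      simp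

theorem norm_emb (φ : ℚ →+* ℂ) (z : ℤ) : ‖φ (((z : ℤ) : 𝓞 ℚ) : ℚ)‖ = |(z : ℝ)| := by
  have h1 : φ (((z : ℤ) : 𝓞 ℚ) : ℚ) = ((z : ℤ) : ℂ) := by
    simp
  rw [h1, Complex.norm_intCast]

/-- a rational number as a quotient of integers of the number field `ℚ` -/
theorem rat_quot (r : ℚ) (T : ℝ) (h1 : |(r.num : ℝ)| ≤ T) (h2 : (r.den : ℝ) ≤ T) :
    ∃ a b : 𝓞 ℚ, b ≠ 0 ∧ (∀ φ : ℚ →+* ℂ, ‖φ a‖ ≤ T ∧ ‖φ b‖ ≤ T) ∧ r = a / b := by
  refine ⟨((r.num : ℤ) : 𝓞 ℚ), (((r.den : ℤ) : ℤ) : 𝓞 ℚ), ?_, fun φ => ⟨?_, ?_⟩, ?_⟩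
  · have : ((r.den : ℤ)) ≠ 0 := by exact_mod_cast r.den_ne_zero
    exact_mod_cast this
  · rw [norm_emb]
    exact h1
  · rw [norm_emb]
    simpa using h2
  · have := Rat.num_div_den r
    conv_lhs => rw [← this]
    simp

end Pool.Agent.Y923.EE
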