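import Pool.Agent.Y923.EE.Pow
import Pool.Agent.Y923.EE.Rat

/-!
# Powers of rational numbers with irrational exponents: approximate relations
-/

set_option autoImplicit false

open NumberField Finset

namespace Pool.Agent.Y923.EE

/-- the polynomial with the coefficients `a s` at the exponents `φ s` -/
noncomputable def rescale {V W : Type} (f : V → W) (a : (V →₀ ℕ) → ℂ) (S : Finset (V →₀ ℕ)) : MvPolynomial W ℂ :=
  ∑ s ∈ S, MvPolynomial.monomial (s.mapDomain f) (a s)

theorem rescale_coeff {V W : Type} [DecidableEq W] (f : V → W) (hf : Function.Injective f) (a : (V →₀ ℕ) → ℂ)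
    (S : Finset (V →₀ ℕ)) (s : V →₀ ℕ) (hs : s ∈ S) : (rescale f a S).coeff (s.mapDomain f) = a s := by
  unfold rescale
  rw [MvPolynomial.coeff_sum, Finset.sum_eq_single s]
  · rw [MvPolynomial.coeff_monomial, if_pos rfl]
  · intro t _ hts
    rw [MvPolynomial.coeff_monomial, if_neg]
    intro h
    exact hts (Finsupp.mapDomain_injective hf h)
  · intro h
    exact absurd hs h

theorem rescale_cases {V W : Type} [DecidableEq W] (f : V → W) (hf : Function.Injective f) (a : (V →₀ ℕ) → ℂ)
    (S : Finset (V →₀ ℕ)) (t : W →₀ ℕ) :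
    (∃ s ∈ S, t = s.mapDomain f ∧ (rescale f a S).coeff t = a s) ∨ (rescale f a S).coeff t = 0 := by
  by_cases h : ∃ s ∈ S, t = s.mapDomain f
  · obtain ⟨s, hs, rfl⟩ := h
    exact Or.inl ⟨s, hs, rfl, rescale_coeff f hf a S s hs⟩
  · right
    unfold rescale
    rw [MvPolynomial.coeff_sum]
    refine Finset.sum_eq_zero fun s hs => ?_
    rw [MvPolynomial.coeff_monomial, if_neg]
    intro h'
    exact h ⟨s, hs, h'.symm⟩

theorem rescale_degreeOf {V W : Type} [DecidableEq W] (f : V → W) (hf : Function.Injective f)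
    (hsurj : Function.Surjective f) (a : (V →₀ ℕ) → ℂ) (S : Finset (V →₀ ℕ)) (d : ℕ)
    (hS : ∀ s ∈ S, ∀ v, s v ≤ d) (w : W) : (rescale f a S).degreeOf w ≤ d := by
  rw [MvPolynomial.degreeOf_le_iff]
  intro t ht
  rcases rescale_cases f hf a S t with ⟨s, hs, rfl, _⟩ | h
  · obtain ⟨v, rfl⟩ := hsurj w
    rw [Finsupp.mapDomain_apply hf]
    exact hS s hs v
  · exact absurd h (MvPolynomial.mem_support_iff.1 ht)

theorem rescale_aeval {V W : Type} (f : V → W) (hf : Function.Injective f) (a : (V →₀ ℕ) → ℂ)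
    (S : Finset (V →₀ ℕ)) (v : W → ℂ) :
    MvPolynomial.aeval v (rescale f a S) = ∑ s ∈ S, a s * s.prod fun i k => v (f i) ^ k := by
  unfold rescale
  rw [map_sum]
  refine Finset.sum_congr rfl fun s _ => ?_
  rw [MvPolynomial.aeval_monomial, Finsupp.prod_mapDomain_index_inj hf]
  rfl

end Pool.Agent.Y923.EE
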