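import Pool.Agent.Y923.EE.PowMain

/-!
# Powers of rational numbers with irrational exponents: reduction to the interval from 1 to 2
-/

set_option autoImplicit false

open NumberField Finset

namespace Pool.Agent.Y923.EE

open Pool.Agent.Y120 (HtLe)

/-- a quotient of two integers -/
theorem htLe_int (p q : ℤ) (hq : q ≠ 0) (T : ℝ) (h1 : |(p : ℝ)| ≤ T) (h2 : |(q : ℝ)| ≤ T) :
    HtLe ℚ T ((p : ℚ) / q) := by
  have hT : 0 ≤ T := (abs_nonneg _).trans h1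
  refine ⟨((p : ℤ) : 𝓞 ℚ), ((q : ℤ) : 𝓞 ℚ), by exact_mod_cast hq, ?_, ?_, by simp⟩
  · refine Pool.Agent.Y120.house_le ℚ hT fun φ => ?_
    rw [norm_emb]
    exact h1
  · refine Pool.Agent.Y120.house_le ℚ hT fun φ => ?_
    rw [norm_emb]
    exact h2

/-- the position of a positive rational number -/
theorem pos_bd (r : ℚ) (hr : 0 < r) (N : ℕ) (hN : 2 ≤ N) (h1 : r.num ≤ N) (h2 : (r.den : ℤ) ≤ N) :
    r ≤ N ∧ (2 : ℚ) ^ (Int.log 2 r) ≤ r ∧ r < 2 * (2 : ℚ) ^ (Int.log 2 r) ∧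
      1 < 2 * N * (2 : ℚ) ^ (Int.log 2 r) ∧ (2 : ℚ) ^ (Int.log 2 r) ≤ N := by
  have h3 : (2 : ℚ) ^ (Int.log 2 r) ≤ r := by exact_mod_cast Int.zpow_log_le_self (b := 2) (by norm_num) hr
  have h4 : r < (2 : ℚ) ^ (Int.log 2 r + 1) := by exact_mod_cast Int.lt_zpow_succ_log_self (b := 2) (by norm_num) r
  rw [zpow_add₀ (by norm_num), zpow_one, mul_comm] at h4
  have hnum : 1 ≤ r.num := Rat.num_pos.2 hr
  have hden : (1 : ℤ) ≤ r.den := by exact_mod_cast r.den_pos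
  have hr' : r = r.num / r.den := (Rat.num_div_den r).symm
  have hd0 : (0 : ℚ) < r.den := by exact_mod_cast r.den_pos
  have h5 : r ≤ N := by
    rw [hr', div_le_iff₀ hd0]
    have h6 : (r.num : ℚ) ≤ N := by exact_mod_cast h1
    have h7 : (1 : ℚ) ≤ r.den := by exact_mod_cast hden
    have h8 : (0 : ℚ) ≤ N := Nat.cast_nonneg _
    nlinarith
  have h6 : 1 ≤ r * N := by
    rw [hr', div_mul_eq_mul_div, le_div_iff₀ hd0, one_mul]
    have h6 : (1 : ℚ) ≤ r.num := by exact_mod_cast hnum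
    have h7 : ((r.den : ℤ) : ℚ) ≤ N := by exact_mod_cast h2
    have h8 : (0 : ℚ) ≤ N := Nat.cast_nonneg _
    have h9 : ((r.den : ℤ) : ℚ) = (r.den : ℚ) := by norm_cast
    rw [h9] at h7
    nlinarith
  have hN0 : (0 : ℚ) < N := by
    have : (2 : ℚ) ≤ N := by exact_mod_cast hN
    linarith
  refine ⟨h5, h3, h4, ?_, h3.trans h5⟩
  nlinarith

theorem log_bd (r : ℚ) (hr : 0 < r) (N : ℕ) (hN : 2 ≤ N) (h1 : r.num ≤ N) (h2 : (r.den : ℤ) ≤ N) :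
    Int.log 2 r ∈ Finset.Icc (-((Nat.log 2 N : ℤ) + 1)) ((Nat.log 2 N : ℤ) + 1) := by
  obtain ⟨_, _, _, h3, h4⟩ := pos_bd r hr N hN h1 h2
  have hl : (N : ℚ) < (2 : ℚ) ^ ((Nat.log 2 N : ℤ) + 1) := by
    have := Nat.lt_pow_succ_log_self (b := 2) (by norm_num) N
    have h5 : ((N : ℕ) : ℚ) < ((2 ^ (Nat.log 2 N).succ : ℕ) : ℚ) := by exact_mod_cast this
    refine lt_of_lt_of_eq h5 ?_
    push_cast
    rw [← zpow_natCast]
    push_cast
    rfl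
  rw [Finset.mem_Icc]
  constructor
  · by_contra hcon
    push Not at hcon
    have h6 : Int.log 2 r + 1 ≤ -((Nat.log 2 N : ℤ) + 1) := by omega
    have h7 : (2 : ℚ) ^ (Int.log 2 r + 1) ≤ (2 : ℚ) ^ (-((Nat.log 2 N : ℤ) + 1)) :=
      zpow_le_zpow_right₀ (by norm_num) h6
    rw [zpow_add₀ (by norm_num), zpow_one, zpow_neg] at h7
    have h8 : (0 : ℚ) < (2 : ℚ) ^ ((Nat.log 2 N : ℤ) + 1) := by positivity
    have h9 : (2 : ℚ) ^ (Int.log 2 r) * 2 * (2 : ℚ) ^ ((Nat.log 2 N : ℤ) + 1) ≤ 1 := by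
      rw [← le_div_iff₀ h8, one_div]
      exact h7
    have h10 : (0 : ℚ) < (2 : ℚ) ^ (Int.log 2 r) := by positivity
    nlinarith
  · by_contra hcon
    push Not at hcon
    have h7 : (2 : ℚ) ^ ((Nat.log 2 N : ℤ) + 1) ≤ (2 : ℚ) ^ (Int.log 2 r) :=
      zpow_le_zpow_right₀ (by norm_num) hcon.le
    linarith

/-- the quotient `r / 2 ^ a` as a quotient of integers -/
theorem quot_int (r : ℚ) (a : ℤ) :
    r / (2 : ℚ) ^ a = ((r.num * 2 ^ (-a).toNat : ℤ) : ℚ) / ((r.den * 2 ^ a.toNat : ℤ) : ℚ) := by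
  have hr' : r = r.num / r.den := (Rat.num_div_den r).symm
  have hd0 : (r.den : ℚ) ≠ 0 := by exact_mod_cast r.den_ne_zero
  conv_lhs => rw [hr']
  push_cast
  rcases le_total 0 a with h | h
  · obtain ⟨n, rfl⟩ := Int.eq_ofNat_of_zero_le h
    simp [div_div]
  · obtain ⟨n, hn⟩ := Int.eq_ofNat_of_zero_le (Int.neg_nonneg.2 h)
    have : a = -(n : ℤ) := by omega
    subst this
    simp
    field_simp

theorem pow_nat (a : ℤ) : ((2 : ℚ) ^ a.toNat ≤ max 1 ((2 : ℚ) ^ a)) := by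
  rcases le_total 0 a with h | h
  · obtain ⟨n, rfl⟩ := Int.eq_ofNat_of_zero_le h
    simp
  · rw [Int.toNat_of_nonpos h]
    simp

theorem htLe_quot (r : ℚ) (hr : 0 < r) (N : ℕ) (hN : 2 ≤ N) (h1 : r.num ≤ N) (h2 : (r.den : ℤ) ≤ N) :
    HtLe ℚ (2 * (N : ℝ) ^ 2) (r / (2 : ℚ) ^ (Int.log 2 r)) := by
  obtain ⟨_, _, _, h3, h4⟩ := pos_bd r hr N hN h1 h2
  set a := Int.log 2 r with ha
  have hN0 : (2 : ℚ) ≤ N := by exact_mod_cast hN
  have h10 : (0 : ℚ) < (2 : ℚ) ^ a := by positivity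
  have h5 : (2 : ℚ) ^ a.toNat ≤ N := (pow_nat a).trans (max_le (by linarith) h4)
  have h6 : (2 : ℚ) ^ (-a).toNat ≤ 2 * N := by
    refine (pow_nat (-a)).trans (max_le (by linarith) ?_)
    rw [zpow_neg, inv_le_iff_one_le_mul₀ h10]
    exact h3.le
  have hnum : 1 ≤ r.num := Rat.num_pos.2 hr
  have hnum' : (r.num : ℚ) ≤ N := by exact_mod_cast h1
  have hden' : ((r.den : ℤ) : ℚ) ≤ N := by exact_mod_cast h2
  have hnum0 : (0 : ℚ) ≤ r.num := by exact_mod_cast (by omega : 0 ≤ r.num)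
  have hden0 : (0 : ℚ) ≤ (r.den : ℤ) := by exact_mod_cast r.den_pos.le
  rw [quot_int]
  refine htLe_int _ _ ?_ _ ?_ ?_
  · exact mul_ne_zero (by exact_mod_cast r.den_ne_zero) (by positivity)
  · have h7 : (((r.num * 2 ^ (-a).toNat : ℤ) : ℚ)) ≤ 2 * (N : ℚ) ^ 2 := by
      push_cast
      have := mul_le_mul hnum' h6 (by positivity) (by linarith)
      nlinarith
    have h8 : (0 : ℤ) ≤ r.num * 2 ^ (-a).toNat := by positivity
    rw [abs_of_nonneg (by exact_mod_cast h8)]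
    exact_mod_cast h7
  · have h7 : (((r.den * 2 ^ a.toNat : ℤ) : ℚ)) ≤ 2 * (N : ℚ) ^ 2 := by
      push_cast
      have := mul_le_mul hden' h5 (by positivity) (by linarith)
      push_cast at this
      nlinarith
    have h8 : (0 : ℤ) ≤ r.den * 2 ^ a.toNat := by positivity
    rw [abs_of_nonneg (by exact_mod_cast h8)]
    exact_mod_cast h7

theorem quot_mem (r : ℚ) (hr : 0 < r) (N : ℕ) (hN : 2 ≤ N) (h1 : r.num ≤ N) (h2 : (r.den : ℤ) ≤ N) :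
    (algebraMap ℚ ℂ) (r / (2 : ℚ) ^ (Int.log 2 r)) ∈ L12 := by
  obtain ⟨_, h3, h4, _, _⟩ := pos_bd r hr N hN h1 h2
  have h10 : (0 : ℚ) < (2 : ℚ) ^ (Int.log 2 r) := by positivity
  refine ⟨((r / (2 : ℚ) ^ (Int.log 2 r) : ℚ) : ℝ), ⟨?_, ?_⟩, by simp⟩
  · have : (1 : ℚ) ≤ r / (2 : ℚ) ^ (Int.log 2 r) := (one_le_div h10).2 h3
    exact_mod_cast this
  · have : r / (2 : ℚ) ^ (Int.log 2 r) ≤ 2 := (div_le_iff₀ h10).2 h4.le
    exact_mod_cast this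

theorem pw_mul_wt {k : ℕ} (θ : Fin k → ℂ) (i : Fin k) (r : ℚ) (hr : 0 < r) (a : ℤ) :
    pw θ i ((algebraMap ℚ ℂ) (r / (2 : ℚ) ^ a)) * wt θ a i = (r : ℂ) ^ θ i := by
  unfold pw wt
  have h1 : (algebraMap ℚ ℂ) (r / (2 : ℚ) ^ a) = (((r / (2 : ℚ) ^ a : ℚ) : ℝ) : ℂ) := by simp
  have h2 : (r : ℂ) = (((r / (2 : ℚ) ^ a : ℚ) : ℝ) : ℂ) * (((2 : ℝ) ^ a : ℝ) : ℂ) := by
    push_cast
    field_simp
  have h3 : (0 : ℝ) ≤ ((r / (2 : ℚ) ^ a : ℚ) : ℝ) := by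
    have : (0 : ℚ) ≤ r / (2 : ℚ) ^ a := by positivity
    exact_mod_cast this
  rw [h1, h2, Complex.mul_cpow_ofReal_nonneg h3 (by positivity)]

end Pool.Agent.Y923.EE
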