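import Pool.Agent.Y923.EE.Indep

/-!
# The functions `e ^ z`, `b ^ (e ^ z)`, `π ^ (π ^ z)`
-/

set_option autoImplicit false

open Filter Topology MvPolynomial Pool.Agent.Y124 Pool.Agent.Y771.KF

namespace Pool.Agent.Y923.EE

theorem AIndepS_comp {κ κ' : Type} (f : κ → ℂ → ℂ) (S : Set ℂ) (hf : AIndepS f S) (e : κ' → κ)
    (he : Function.Injective e) : AIndepS (fun i => f (e i)) S := by
  intro P hP
  have h1 : rename (Option.map e) P = 0 := by
    apply hf
    intro t ht
    rw [eval_rename, ← hP t ht]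
    congr 1
    refine congrArg _ ?_
    funext o
    cases o <;> rfl
  exact (rename_injective _ (Option.map_injective he)) (by rw [h1, map_zero])

theorem one_lt_log_pi : 1 < Real.log Real.pi := by
  rw [Real.lt_log_iff_exp_lt Real.pi_pos]
  have h1 := Real.exp_one_lt_d9
  have h2 := Real.pi_gt_three
  linarith

/-- the three functions -/
noncomputable def v3 (b : ℝ) (i : Fin 3) (z : ℂ) : ℂ :=
  ![Complex.exp z, (b : ℂ) ^ Complex.exp z, (Real.pi : ℂ) ^ ((Real.pi : ℂ) ^ z)] i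

/-- the reindexing -/
def e3 : Fin 3 → Fin 2 ⊕ Fin 1 := ![Sum.inr 0, Sum.inl 0, Sum.inl 1]

theorem e3_inj : Function.Injective e3 := by
  decide

theorem v3_eq (b : ℝ) (hb : 0 < b) (i : Fin 3) :
    v3 b i = uC ![Real.log b, Real.log Real.pi] ![1, Real.log Real.pi] ![1] (e3 i) := by
  have hp : (Real.pi : ℂ) ≠ 0 := by exact_mod_cast Real.pi_ne_zero
  have hb' : (b : ℂ) ≠ 0 := by exact_mod_cast hb.ne'
  have hpow : ∀ (a : ℝ), 0 < a → ∀ w : ℂ, (a : ℂ) ^ w = Complex.exp ((Real.log a : ℂ) * w) := by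
    intro a ha w
    rw [Complex.cpow_def_of_ne_zero (by exact_mod_cast ha.ne'), ← Complex.ofReal_log ha.le]
  funext z
  fin_cases i
  · simp [v3, e3, uC]
  · simp only [v3, e3, uC]
    simp [hpow b hb]
  · simp only [v3, e3, uC]
    simp [hpow Real.pi Real.pi_pos]

theorem nondeg3 (b : ℝ) (hb : 0 < b) (hb1 : b ≠ 1) :
    Nondeg ![Real.log b, Real.log Real.pi] ![1, Real.log Real.pi] ![1] := by
  intro c d h1 h2
  have hl := one_lt_log_pi
  have hlb : Real.log b ≠ 0 := Real.log_ne_zero_of_pos_of_ne_one hb hb1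
  have h3 := h1 0
  have h4 := h1 1
  simp only [Fin.sum_univ_two, Matrix.cons_val_zero, Matrix.cons_val_one, if_true, hl.ne', hl.ne, if_false,
    add_zero, zero_add] at h3 h4
  simp only [Fin.sum_univ_one, Matrix.cons_val_zero, mul_one] at h2
  refine ⟨?_, ?_⟩
  · funext i
    fin_cases i
    · have := (mul_eq_zero.1 h3).resolve_right hlb
      exact_mod_cast this
    · have := (mul_eq_zero.1 h4).resolve_right (by linarith)
      exact_mod_cast this
  · funext i
    have hi : i = 0 := Subsingleton.elim _ _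
    rw [hi]
    exact_mod_cast h2

theorem v3_an (b : ℝ) (hb : 0 < b) (i : Fin 3) (z : ℂ) : AnalyticAt ℂ (v3 b i) z := by
  rw [v3_eq b hb]
  exact uC_an _ _ _ _ z

theorem v3_loc (b : ℝ) (hb : 0 < b) (hb1 : b ≠ 1) (t : ℂ) : LocInd (v3 b) t := by
  have hind : AIndepS (v3 b) Set.univ := by
    have h1 := uC_indep ![Real.log b, Real.log Real.pi] ![1, Real.log Real.pi] ![1] (by
      have hl := one_lt_log_pi
      intro i
      fin_cases i
      · simp
      · simp
        linarith) (nondeg3 b hb hb1)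
    have h2 := AIndepS_comp _ _ h1 e3 e3_inj
    have h3 : (fun i => uC ![Real.log b, Real.log Real.pi] ![1, Real.log Real.pi] ![1] (e3 i)) = v3 b :=
      funext fun i => (v3_eq b hb i).symm
    rwa [h3] at h2
  exact locInd_of_S _ Set.univ isPreconnected_univ (fun i z _ => v3_an b hb i z) hind t (Set.mem_univ t)

theorem main3 (b : ℝ) (hb : 0 < b) (hb1 : b ≠ 1) {h : Type} [Fintype h] (m n d : ℕ) (L : Set ℂ)
    (hL : IsCompact L) (A ε : ℝ) (hε : 0 < ε) :
    ∃ B C T₀ : ℝ, 0 ≤ C ∧ 2 ≤ T₀ ∧ ∀ (K : Type) [Field K] [NumberField K], Module.finrank ℚ K ≤ m → ∀ (io : K →+* ℂ)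
      (ξ : h → ℂ) (T : ℝ), T₀ ≤ T →
      (Pool.Agent.Y124.ExcNF n d K io ξ (fun t i => v3 b i t) L A B T).Finite ∧
      ((Pool.Agent.Y124.ExcNF n d K io ξ (fun t i => v3 b i t) L A B T).ncard : ℝ) ≤
        C * T ^ ε * (({x : K | Pool.Agent.Y120.HtLe K T x ∧ io x ∈ L}.ncard : ℝ)) ^ (n - 1) :=
  Pool.Agent.Y124.excNF m n d _ L (fun g => Pool.Agent.Y124.oneV_of g (v3 b) L hL
    (fun i t _ => v3_an b hb i t) fun t _ => v3_loc b hb hb1 t) A ε hε

end Pool.Agent.Y923.EE
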